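import Pool.Agent.Q198.JN.Main

set_option autoImplicit false

/-!
# Domain spaces with the weak maximizing property

If `(E, ℓ_∞)` has the weak maximizing property then `E` is finite-dimensional.  In particular the
domain spaces `E` such that `(E, F)` has the weak maximizing property for every Banach space `F`
are finite-dimensional.
-/

namespace Pool.Agent.Results.MP_479f73_an.FiniteDimensionalDomain

open Filter Topology Pool.Agent.Q198.JN

/-- `T` attains its norm at a unit vector. -/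
def AttainsNorm {𝕜 E F : Type*} [RCLike 𝕜] [NormedAddCommGroup E] [NormedSpace 𝕜 E]
    [NormedAddCommGroup F] [NormedSpace 𝕜 F] (T : E →L[𝕜] F) : Prop :=
  ∃ x : E, ‖x‖ = 1 ∧ ‖T x‖ = ‖T‖

/-- `x` is a maximizing sequence for `T`. -/
def IsMaximizing {𝕜 E F : Type*} [RCLike 𝕜] [NormedAddCommGroup E] [NormedSpace 𝕜 E]
    [NormedAddCommGroup F] [NormedSpace 𝕜 F] (T : E →L[𝕜] F) (x : ℕ → E) : Prop :=
  (∀ n, ‖x n‖ = 1) ∧ Tendsto (fun n => ‖T (x n)‖) atTop (𝓝 ‖T‖)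

/-- `x` is weakly null. -/
def WeaklyNull (𝕜 : Type*) {E : Type*} [RCLike 𝕜] [NormedAddCommGroup E] [NormedSpace 𝕜 E]
    (x : ℕ → E) : Prop :=
  ∀ φ : E →L[𝕜] 𝕜, Tendsto (fun n => φ (x n)) atTop (𝓝 0)

/-- The weak maximizing property of the pair `(E, F)`. -/
def WMP (𝕜 E F : Type*) [RCLike 𝕜] [NormedAddCommGroup E] [NormedSpace 𝕜 E]
    [NormedAddCommGroup F] [NormedSpace 𝕜 F] : Prop :=
  ∀ T : E →L[𝕜] F, (∃ x : ℕ → E, IsMaximizing T x ∧ ¬ WeaklyNull 𝕜 x) → AttainsNorm T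

variable {𝕜 : Type} [RCLike 𝕜] {E : Type*} [NormedAddCommGroup E] [NormedSpace 𝕜 E]

/-- The operator into `ℓ_∞` with prescribed coordinate functionals. -/
noncomputable def toLinf (f : ℕ → (E →L[𝕜] 𝕜)) (hf : ∀ n, ‖f n‖ ≤ 1) :
    E →L[𝕜] lp (fun _ : ℕ => 𝕜) ⊤ :=
  LinearMap.mkContinuous
    { toFun := fun x => (⟨fun n => f n x, memℓp_infty ⟨‖x‖, by
        rintro _ ⟨n, rfl⟩
        exact ((f n).le_opNorm x).trans (mul_le_of_le_one_left (norm_nonneg _) (hf n))⟩⟩ :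
          lp (fun _ : ℕ => 𝕜) ⊤)
      map_add' := fun x y => by
        ext n
        simp
      map_smul' := fun c x => by
        ext n
        simp } 1 (fun x => by
      rw [one_mul]
      refine lp.norm_le_of_forall_le (norm_nonneg _) fun n => ?_
      exact ((f n).le_opNorm x).trans (mul_le_of_le_one_left (norm_nonneg _) (hf n)))

theorem toLinf_apply (f : ℕ → (E →L[𝕜] 𝕜)) (hf : ∀ n, ‖f n‖ ≤ 1) (x : E) (n : ℕ) :
    (toLinf f hf x : ℕ → 𝕜) n = f n x := rfl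

theorem toLinf_norm_le (f : ℕ → (E →L[𝕜] 𝕜)) (hf : ∀ n, ‖f n‖ ≤ 1) : ‖toLinf f hf‖ ≤ 1 :=
  LinearMap.mkContinuous_norm_le _ zero_le_one _

/-- Under the weak maximizing property of `(E, ℓ_∞)`, norming sequences of unit functionals whose
values stay away from `1` are weakly null. -/
theorem step (h : WMP 𝕜 E (lp (fun _ : ℕ => 𝕜) ⊤)) (g : ℕ → (E →L[𝕜] 𝕜)) (hg : ∀ n, ‖g n‖ = 1)
    (hs : ∀ x : E, ‖x‖ = 1 → ∃ ρ : ℝ, ρ < 1 ∧ ∀ᶠ n in atTop, ‖g n x‖ ≤ ρ)
    (x : ℕ → E) (hx : ∀ n, ‖x n‖ = 1) (hgx : Tendsto (fun n => ‖g n (x n)‖) atTop (𝓝 1)) :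
    WeaklyNull 𝕜 x := by
  by_contra hcon
  set c : ℕ → ℝ := fun n => 1 - 1 / ((n : ℝ) + 1) with hc
  have hc0 : ∀ n, 0 ≤ c n := fun n => by
    simp only [hc]
    rw [sub_nonneg, div_le_one (by positivity)]
    have : (0 : ℝ) ≤ n := Nat.cast_nonneg n
    linarith
  have hc1 : ∀ n, c n < 1 := fun n => by
    simp only [hc]
    have : (0 : ℝ) < 1 / ((n : ℝ) + 1) := by positivity
    linarith
  have hcmono : ∀ m n, m ≤ n → c m ≤ c n := fun m n hmn => by
    simp only [hc]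
    have h1 : (m : ℝ) ≤ n := by exact_mod_cast hmn
    have := one_div_le_one_div_of_le (show (0 : ℝ) < (m : ℝ) + 1 by positivity)
      (show (m : ℝ) + 1 ≤ n + 1 by linarith)
    linarith
  have hct : Tendsto c atTop (𝓝 1) := by
    have := (tendsto_one_div_add_atTop_nhds_zero_nat (𝕜 := ℝ)).const_sub 1
    simpa [hc] using this
  let f : ℕ → (E →L[𝕜] 𝕜) := fun n => ((c n : ℝ) : 𝕜) • g n
  have hfn : ∀ n y, ‖f n y‖ = c n * ‖g n y‖ := fun n y => by
    simp only [f]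
    rw [smul_apply, norm_smul, RCLike.norm_ofReal, abs_of_nonneg (hc0 n)]
  have hf : ∀ n, ‖f n‖ ≤ 1 := fun n => by
    simp only [f]
    rw [norm_smul, RCLike.norm_ofReal, abs_of_nonneg (hc0 n), hg, mul_one]
    exact (hc1 n).le
  set T := toLinf f hf with hT
  have hT1 : ‖T‖ ≤ 1 := toLinf_norm_le f hf
  have hlow : ∀ n, c n * ‖g n (x n)‖ ≤ ‖T (x n)‖ := fun n => by
    rw [← hfn]
    exact lp.norm_apply_le_norm ENNReal.top_ne_zero (T (x n)) n
  have hup : ∀ n, ‖T (x n)‖ ≤ 1 := fun n => by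
    have := T.le_opNorm (x n)
    rw [hx, mul_one] at this
    exact this.trans hT1
  have ht : Tendsto (fun n => ‖T (x n)‖) atTop (𝓝 1) := by
    have h1 := hct.mul hgx
    rw [mul_one] at h1
    exact tendsto_of_tendsto_of_tendsto_of_le_of_le h1 tendsto_const_nhds hlow hup
  have hTn : ‖T‖ = 1 := by
    apply le_antisymm hT1
    refine le_of_tendsto' ht fun n => ?_
    have := T.le_opNorm (x n)
    rwa [hx, mul_one] at this
  obtain ⟨y, hy, hTy⟩ := h T ⟨x, ⟨hx, by rw [hTn]; exact ht⟩, hcon⟩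
  obtain ⟨ρ, hρ, hev⟩ := hs y hy
  obtain ⟨N, hN⟩ := Filter.eventually_atTop.1 hev
  have h2 : ‖T y‖ ≤ max (max ρ (c N)) 0 := by
    refine lp.norm_le_of_forall_le (le_max_right _ _) fun n => ?_
    refine le_trans ?_ (le_max_left _ _)
    have h3 : ‖(T y : ℕ → 𝕜) n‖ = c n * ‖g n y‖ := by rw [hT, toLinf_apply, hfn]
    have h4 : ‖g n y‖ ≤ 1 := by
      have := (g n).le_opNorm y
      rwa [hg, hy, mul_one] at this
    rw [h3]
    rcases le_total N n with hn | hn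
    · refine le_trans ?_ (le_max_left _ _)
      refine le_trans ?_ (hN n hn)
      exact mul_le_of_le_one_left (norm_nonneg _) (hc1 n).le
    · refine le_trans ?_ (le_max_right _ _)
      refine le_trans ?_ (hcmono n N hn)
      exact mul_le_of_le_one_right (hc0 n) h4
  rw [hTy, hTn] at h2
  have h5 : max (max ρ (c N)) 0 < 1 := max_lt (max_lt hρ (hc1 N)) one_pos
  linarith

/-- Unit vectors at which a functional is positive can be rotated and normalized. -/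
theorem rotate (g : E →L[𝕜] 𝕜) (x : E) (hx1 : ‖x‖ < 1) (hgx : 0 < ‖g x‖) :
    ∃ y : E, ‖y‖ = 1 ∧ ‖g x‖ < RCLike.re (g y) := by
  have hx0 : 0 < ‖x‖ := by
    rw [norm_pos_iff]; rintro rfl; simp at hgx
  let c : 𝕜 := (starRingEnd 𝕜) (g x) / (((‖g x‖ * ‖x‖ : ℝ)) : 𝕜)
  have hcn : ‖c‖ = ‖x‖⁻¹ := by
    simp only [c]
    rw [norm_div, RCLike.norm_conj, RCLike.norm_ofReal, abs_of_pos (by positivity)]
    field_simp
  refine ⟨c • x, ?_, ?_⟩
  · rw [norm_smul, hcn, inv_mul_cancel₀ hx0.ne']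
  · have h2 : g (c • x) = ((‖g x‖ / ‖x‖ : ℝ) : 𝕜) := by
      rw [map_smul, smul_eq_mul]
      simp only [c]
      rw [div_mul_eq_mul_div, RCLike.conj_mul]
      push_cast
      have h3 : ((‖g x‖ : ℝ) : 𝕜) ≠ 0 := by exact_mod_cast hgx.ne'
      have h4 : ((‖x‖ : ℝ) : 𝕜) ≠ 0 := by exact_mod_cast hx0.ne'
      field_simp
    rw [h2, RCLike.ofReal_re, lt_div_iff₀ hx0]
    exact mul_lt_of_lt_one_right hgx hx1

/-- Norming unit vectors with real values. -/
theorem exists_norming (g : E →L[𝕜] 𝕜) (ε : ℝ) (hε : 0 < ε) (hg : ‖g‖ = 1) :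
    ∃ x : E, ‖x‖ = 1 ∧ 1 - ε < RCLike.re (g x) := by
  obtain ⟨x, hx1, hx2⟩ := g.exists_lt_apply_of_lt_opNorm (r := max 0 (1 - ε)) (by
    rw [hg]; exact max_lt one_pos (by linarith))
  obtain ⟨y, hy1, hy2⟩ := rotate g x hx1 ((le_max_left _ _).trans_lt hx2)
  exact ⟨y, hy1, ((le_max_right _ _).trans_lt hx2).trans hy2⟩

theorem re_le_norm_apply (g : E →L[𝕜] 𝕜) (x : E) : RCLike.re (g x) ≤ ‖g x‖ :=
  RCLike.re_le_norm _

/-- Adding far members of a weak-star null sequence does not increase the norm beyond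
`max ‖g‖ 1`. -/
theorem claim (h : WMP 𝕜 E (lp (fun _ : ℕ => 𝕜) ⊤)) (f : ℕ → (E →L[𝕜] 𝕜))
    (hf : ∀ n, ‖f n‖ = 1) (hf0 : ∀ y, Tendsto (fun n => f n y) atTop (𝓝 0))
    (g : E →L[𝕜] 𝕜) (c : ℝ) (hc : ‖g‖ < c) (hc1 : 1 < c) : ∀ᶠ n in atTop, ‖g + f n‖ < c := by
  by_contra hcon
  have hc0 : 0 < c := by linarith
  rw [Filter.not_eventually] at hcon
  obtain ⟨φ, hφ, hφc⟩ := Filter.extraction_of_frequently_atTop hcon
  have hφc' : ∀ k, c ≤ ‖g + f (φ k)‖ := fun k => not_lt.1 (hφc k)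
  let G : ℕ → (E →L[𝕜] 𝕜) := fun k => g + f (φ k)
  have hG : ∀ k, c ≤ ‖G k‖ := hφc'
  have hG0 : ∀ k, 0 < ‖G k‖ := fun k => hc0.trans_le (hG k)
  let G' : ℕ → (E →L[𝕜] 𝕜) := fun k => ((‖G k‖⁻¹ : ℝ) : 𝕜) • G k
  have hG'n : ∀ k, ‖G' k‖ = 1 := fun k => by
    simp only [G']
    rw [norm_smul, RCLike.norm_ofReal, abs_of_pos (inv_pos.2 (hG0 k)),
      inv_mul_cancel₀ (hG0 k).ne']
  have hG'a : ∀ k y, ‖G' k y‖ = ‖G k‖⁻¹ * ‖G k y‖ := fun k y => by
    simp only [G']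
    rw [smul_apply, norm_smul, RCLike.norm_ofReal, abs_of_pos (inv_pos.2 (hG0 k))]
  have hfφ : ∀ y, Tendsto (fun k => f (φ k) y) atTop (𝓝 0) := fun y =>
    (hf0 y).comp hφ.tendsto_atTop
  have hex : ∀ k : ℕ, ∃ x : E, ‖x‖ = 1 ∧ 1 - 1 / ((k : ℝ) + 1) < RCLike.re (G' k x) := fun k =>
    exists_norming (G' k) _ (by positivity) (hG'n k)
  choose x hx1 hx2 using hex
  have hlow : ∀ k : ℕ, 1 - 1 / ((k : ℝ) + 1) ≤ ‖G' k (x k)‖ := fun k =>
    (hx2 k).le.trans (re_le_norm_apply _ _)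
  have hup : ∀ k, ‖G' k (x k)‖ ≤ 1 := fun k => by
    have := (G' k).le_opNorm (x k)
    rwa [hG'n, hx1, mul_one] at this
  have hct : Tendsto (fun k : ℕ => 1 - 1 / ((k : ℝ) + 1)) atTop (𝓝 1) := by
    have := (tendsto_one_div_add_atTop_nhds_zero_nat (𝕜 := ℝ)).const_sub 1
    simpa using this
  have hwn : WeaklyNull 𝕜 x := by
    refine step h G' hG'n (fun y hy => ?_) x hx1
      (tendsto_of_tendsto_of_tendsto_of_le_of_le hct tendsto_const_nhds hlow hup)
    refine ⟨(‖g‖ / c + 1) / 2, ?_, ?_⟩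
    · have : ‖g‖ / c < 1 := (div_lt_one hc0).2 hc
      linarith
    · have h1 : Tendsto (fun k => ‖f (φ k) y‖) atTop (𝓝 0) := by
        have := (hfφ y).norm
        rwa [norm_zero] at this
      have h2 : 0 < (c - ‖g‖) / 2 := by linarith
      filter_upwards [h1.eventually_lt_const h2] with k hk
      rw [hG'a]
      have h3 : ‖G k y‖ ≤ ‖g‖ + (c - ‖g‖) / 2 := by
        simp only [G]
        rw [add_apply]
        refine (norm_add_le _ _).trans (add_le_add ?_ hk.le)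
        have := g.le_opNorm y
        rwa [hy, mul_one] at this
      have h4 : ‖G k‖⁻¹ ≤ c⁻¹ := inv_anti₀ hc0 (hG k)
      calc ‖G k‖⁻¹ * ‖G k y‖ ≤ c⁻¹ * (‖g‖ + (c - ‖g‖) / 2) :=
            mul_le_mul h4 h3 (norm_nonneg _) (inv_nonneg.2 hc0.le)
        _ = (‖g‖ / c + 1) / 2 := by field_simp; ring
  have h5 : ∀ k : ℕ, c * (1 - 1 / ((k : ℝ) + 1)) ≤ ‖g (x k)‖ + 1 := by
    intro k
    have h6 : ‖G k (x k)‖ ≤ ‖g (x k)‖ + 1 := by
      simp only [G]
      rw [add_apply]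
      refine (norm_add_le _ _).trans (add_le_add le_rfl ?_)
      have := (f (φ k)).le_opNorm (x k)
      rwa [hf, hx1, mul_one] at this
    refine le_trans ?_ h6
    have h7 := hlow k
    rw [hG'a, inv_mul_eq_div, le_div_iff₀ (hG0 k)] at h7
    refine le_trans ?_ h7
    rw [mul_comm]
    refine mul_le_mul_of_nonneg_left (hG k) ?_
    rw [sub_nonneg, div_le_one (by positivity)]
    have : (0 : ℝ) ≤ k := Nat.cast_nonneg k
    linarith
  have h8 : Tendsto (fun k : ℕ => c * (1 - 1 / ((k : ℝ) + 1))) atTop (𝓝 (c * 1)) :=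
    hct.const_mul c
  have h9 : Tendsto (fun k => ‖g (x k)‖ + 1) atTop (𝓝 (0 + 1)) := by
    have := (hwn g).norm
    rw [norm_zero] at this
    exact this.add_const 1
  have := le_of_tendsto_of_tendsto' h8 h9 h5
  linarith

/-- Ultrafilter limits of bounded sequences of functionals. -/
theorem exists_ultralimit' (U : Ultrafilter ℕ) (g : ℕ → (E →L[𝕜] 𝕜)) (R : ℝ)
    (hg : ∀ n, ‖g n‖ ≤ R) :
    ∃ G : E →L[𝕜] 𝕜, ∀ w, Tendsto (fun n => g n w) U (𝓝 (G w)) := by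
  have hK := WeakDual.isCompact_closedBall (𝕜 := 𝕜) (E := E) 0 R
  have h1 : ∀ n, StrongDual.toWeakDual (g n) ∈
      (WeakDual.toStrongDual ⁻¹' Metric.closedBall (0 : StrongDual 𝕜 E) R) := by
    intro n
    simpa using hg n
  have h2 := (isCompact_iff_ultrafilter_le_nhds.1 hK)
    (U.map (fun n => StrongDual.toWeakDual (g n))) (by
    rw [le_principal_iff]
    exact Filter.mem_map.2 (Filter.Eventually.of_forall h1))
  obtain ⟨G, -, hG⟩ := h2
  refine ⟨WeakDual.toStrongDual G, fun w => ?_⟩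
  have h3 : Tendsto (fun n => StrongDual.toWeakDual (g n)) U (𝓝 G) := hG
  exact ((WeakDual.eval_continuous w).tendsto G).comp h3

/-- If `(E, ℓ_∞)` has the weak maximizing property then `E` is finite-dimensional. -/
theorem main (h : WMP 𝕜 E (lp (fun _ : ℕ => 𝕜) ⊤)) : FiniteDimensional 𝕜 E := by
  by_contra hdim
  obtain ⟨f, hf, hf0⟩ := jn hdim
  have hex : ∀ k : ℕ, ∃ x : E, ‖x‖ = 1 ∧
      1 - (1 / 8 : ℝ) * (1 / ((k : ℝ) + 1)) < RCLike.re (f k x) := fun k =>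
    exists_norming (f k) _ (by positivity) (hf k)
  choose x hx1 hx2 using hex
  have hre : ∀ k, 7 / 8 ≤ RCLike.re (f k (x k)) := fun k => by
    have h1 := hx2 k
    have h2 : 1 / ((k : ℝ) + 1) ≤ 1 := by
      rw [div_le_one (by positivity)]
      have : (0 : ℝ) ≤ k := Nat.cast_nonneg k
      linarith
    linarith
  have hwn : WeaklyNull 𝕜 x := by
    refine step h f hf (fun y _ => ⟨1 / 2, by norm_num, ?_⟩) x hx1 ?_
    · have h1 := (hf0 y).norm
      rw [norm_zero] at h1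
      filter_upwards [h1.eventually_lt_const (show (0 : ℝ) < 1 / 2 by norm_num)] with k hk
      exact hk.le
    · have hct : Tendsto (fun k : ℕ => 1 - (1 / 8 : ℝ) * (1 / ((k : ℝ) + 1))) atTop (𝓝 1) := by
        have := ((tendsto_one_div_add_atTop_nhds_zero_nat (𝕜 := ℝ)).const_mul (1 / 8 : ℝ)).const_sub 1
        simpa using this
      refine tendsto_of_tendsto_of_tendsto_of_le_of_le hct tendsto_const_nhds
        (fun k => (hx2 k).le.trans (re_le_norm_apply _ _)) fun k => ?_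
      have := (f k).le_opNorm (x k)
      rwa [hf, hx1, mul_one] at this
  -- the choice of the next index
  have hstep : ∀ (k : ℕ) (S : E →L[𝕜] 𝕜) (F : Finset ℕ), ∃ n : ℕ,
      ‖S‖ ≤ 2 - (1 / 2 : ℝ) ^ k → (∀ i ∈ F, i < n) ∧ ‖S + f n‖ ≤ 2 - (1 / 2 : ℝ) ^ (k + 1) ∧
        ‖S (x n)‖ ≤ 1 / 16 ∧ ∀ i ∈ F, ‖f n (x i)‖ ≤ (1 / 2 : ℝ) ^ (k + 4) := by
    intro k S F
    by_cases hS : ‖S‖ ≤ 2 - (1 / 2 : ℝ) ^ k
    · have hp : 0 < (1 / 2 : ℝ) ^ k := by positivity
      have hp1 : (1 / 2 : ℝ) ^ k ≤ 1 := pow_le_one₀ (by norm_num) (by norm_num)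
      have e1 : (1 / 2 : ℝ) ^ (k + 1) = (1 / 2 : ℝ) ^ k / 2 := by rw [pow_succ]; ring
      have a1 : ∀ᶠ n in atTop, ‖S + f n‖ < 2 - (1 / 2 : ℝ) ^ (k + 1) :=
        claim h f hf hf0 S _ (by rw [e1]; linarith) (by rw [e1]; linarith)
      have a2 : ∀ᶠ n in atTop, ‖S (x n)‖ < 1 / 16 := by
        have := (hwn S).norm
        rw [norm_zero] at this
        exact this.eventually_lt_const (by norm_num)
      have a3 : ∀ᶠ n in atTop, ∀ i ∈ F, ‖f n (x i)‖ < (1 / 2 : ℝ) ^ (k + 4) := by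
        rw [Filter.eventually_all_finset]
        intro i _
        have := (hf0 (x i)).norm
        rw [norm_zero] at this
        exact this.eventually_lt_const (by positivity)
      have a4 : ∀ᶠ n in atTop, ∀ i ∈ F, i < n := by
        rw [Filter.eventually_all_finset]
        intro i _
        exact eventually_gt_atTop i
      obtain ⟨n, b1, b2, b3, b4⟩ := (a1.and (a2.and (a3.and a4))).exists
      exact ⟨n, fun _ => ⟨b4, b1.le, b2.le, fun i hi => (b3 i hi).le⟩⟩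
    · exact ⟨0, fun h => absurd h hS⟩
  choose nx hnx using hstep
  let q : ℕ → (E →L[𝕜] 𝕜) × Finset ℕ := fun k =>
    Nat.rec (0, ∅) (fun k q => (q.1 + f (nx k q.1 q.2), insert (nx k q.1 q.2) q.2)) k
  let N : ℕ → ℕ := fun k => nx k (q k).1 (q k).2
  have hq1 : ∀ k, (q (k + 1)).1 = (q k).1 + f (N k) := fun k => rfl
  have hq2 : ∀ k, (q (k + 1)).2 = insert (N k) (q k).2 := fun k => rfl
  have hnorm : ∀ k, ‖(q k).1‖ ≤ 2 - (1 / 2 : ℝ) ^ k := by
    intro k
    induction k with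
    | zero => simp [q]
    | succ k ih => rw [hq1]; exact (hnx k _ _ ih).2.1
  have hN := fun k => hnx k (q k).1 (q k).2 (hnorm k)
  have hmem : ∀ j m, (N j) ∈ (q (j + 1 + m)).2 := by
    intro j m
    induction m with
    | zero => rw [add_zero, hq2]; exact Finset.mem_insert_self _ _
    | succ m ih => rw [← add_assoc, hq2]; exact Finset.mem_insert_of_mem ih
  have hNm : StrictMono N := strictMono_nat_of_lt_succ fun k => (hN (k + 1)).1 _ (hmem k 0)
  have hlow : ∀ j m, 11 / 16 + (1 / 2 : ℝ) ^ (j + 1 + m + 3)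
      ≤ RCLike.re ((q (j + 1 + m)).1 (x (N j))) := by
    intro j m
    induction m with
    | zero =>
      rw [add_zero, hq1, add_apply, map_add]
      have h1 := (hN j).2.2.1
      have h2 := hre (N j)
      have h3 : -‖(q j).1 (x (N j))‖ ≤ RCLike.re ((q j).1 (x (N j))) :=
        neg_le_of_abs_le (RCLike.abs_re_le_norm _)
      have h4 : (1 / 2 : ℝ) ^ (j + 1 + 3) ≤ 1 / 16 := by
        have : (1 / 2 : ℝ) ^ (j + 1 + 3) = (1 / 2 : ℝ) ^ j * (1 / 16) := by
          rw [show j + 1 + 3 = j + 4 by ring, pow_add]; norm_num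
        rw [this]
        have : (1 / 2 : ℝ) ^ j ≤ 1 := pow_le_one₀ (by norm_num) (by norm_num)
        linarith
      change 11 / 16 + (1 / 2 : ℝ) ^ (j + 1 + 3) ≤ _
      have h5 : ‖(q j).1 (x (N j))‖ ≤ 1 / 16 := h1
      linarith
    | succ m ih =>
      rw [← add_assoc, hq1, add_apply, map_add]
      have h1 := (hN (j + 1 + m)).2.2.2 _ (hmem j m)
      have h3 : -‖f (N (j + 1 + m)) (x (N j))‖ ≤ RCLike.re (f (N (j + 1 + m)) (x (N j))) :=
        neg_le_of_abs_le (RCLike.abs_re_le_norm _)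
      have e1 : (1 / 2 : ℝ) ^ (j + 1 + m + 3) = 2 * (1 / 2 : ℝ) ^ (j + 1 + m + 4) := by
        rw [pow_succ (1 / 2 : ℝ) (j + 1 + m + 3)]; ring
      have e2 : (1 / 2 : ℝ) ^ (j + 1 + m + 1 + 3) = (1 / 2 : ℝ) ^ (j + 1 + m + 4) := by
        congr 1
      have h4 : ‖f (N (j + 1 + m)) (x (N j))‖ ≤ (1 / 2 : ℝ) ^ (j + 1 + m + 4) := h1
      rw [e2]
      rw [e1] at ih
      linarith
  let U : Ultrafilter ℕ := hyperfilter ℕ
  have hUle : (U : Filter ℕ) ≤ atTop := by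
    rw [← Nat.cofinite_eq_atTop]; exact hyperfilter_le_cofinite
  obtain ⟨H, hH⟩ := exists_ultralimit' U (fun k => (q k).1) 2 (fun k => by
    have := hnorm k
    have h2 : 0 < (1 / 2 : ℝ) ^ k := by positivity
    linarith)
  have hHlow : ∀ j, 11 / 16 ≤ RCLike.re (H (x (N j))) := by
    intro j
    have h1 := ((RCLike.continuous_re (K := 𝕜)).tendsto _).comp (hH (x (N j)))
    refine ge_of_tendsto h1 ?_
    filter_upwards [hUle (eventually_ge_atTop (j + 1))] with k hk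
    obtain ⟨m, rfl⟩ := Nat.exists_eq_add_of_le hk
    have := hlow j m
    have h2 : 0 < (1 / 2 : ℝ) ^ (j + 1 + m + 3) := by positivity
    simp only [Function.comp]
    linarith
  have h1 := ((RCLike.continuous_re (K := 𝕜)).tendsto _).comp
    ((hwn H).comp hNm.tendsto_atTop)
  rw [map_zero] at h1
  have := ge_of_tendsto' h1 hHlow
  norm_num at this

/-- Banach spaces `E` (over `ℝ` or `ℂ`) such that `(E, F)` has the weak maximizing property for
every Banach space `F` are finite-dimensional; already the range space `F = ℓ_∞` suffices. -/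
theorem result (𝕜 : Type) [RCLike 𝕜] (E : Type*) [NormedAddCommGroup E] [NormedSpace 𝕜 E]
    [CompleteSpace E] :
    ((∀ (F : Type) [NormedAddCommGroup F] [NormedSpace 𝕜 F] [CompleteSpace F], WMP 𝕜 E F) →
      FiniteDimensional 𝕜 E) ∧
    (WMP 𝕜 E (lp (fun _ : ℕ => 𝕜) ⊤) → FiniteDimensional 𝕜 E) :=
  ⟨fun h => main (h _), main⟩

end Pool.Agent.Results.MP_479f73_an.FiniteDimensionalDomain
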